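import Pool.Agent.H63.SEP.Stmts3
import Pool.Agent.H93.CT.Stmts
import Pool.Agent.H45.SEP.CO1

/-!
Project SEP, module CO2: decoding of points which code countable transitive structures.
-/

set_option linter.unusedVariables false
set_option synthInstance.maxSize 100000

namespace SW.SEP

open SW

/-- CO2 -/
theorem sep_co2 (hS : SQFStmt) (hR : SRIStmt) (hM : MOSStmt) (hD : DCXStmt) : CO2Stmt := by
  intro N _ _ k f hk z w hz hw hC hW
  obtain ⟨hext, hnum, hnu, m0, hm0, hf, hz1, hz2⟩ := hC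
  have S := hS N
  have hDm : ∀ {n : ℕ} {t : (Fin n → N) → N} [ht : DfT t], Df (fun v => Dm k w (t v)) := by
    intro n t ht
    unfold Dm
    infer_instance
  have hEm : ∀ {n : ℕ} {t s : (Fin n → N) → N} [ht : DfT t] [hs : DfT s],
      Df (fun v => Em k w (t v) (s v)) := by
    intro n t s ht hs
    unfold Em
    infer_instance
  have hNu : ∀ {n : ℕ} {t s : (Fin n → N) → N} [ht : DfT t] [hs : DfT s],
      Df (fun v => Nu k w (t v) (s v)) := by
    intro n t s ht hs
    unfold Nu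
    infer_instance
  have hX' : ∃ X, ∀ m, E m X ↔ Dm k w m := by
    refine ⟨sep om (fun m => Dm k w m), fun m => ?_⟩
    rw [mem_sep' (hDm (t := fun v : Fin 1 → N => v 0))]
    exact ⟨fun h => h.2, fun h => ⟨h.1, h⟩⟩
  obtain ⟨X, hX⟩ := hX'
  have hwf : ∀ a, Sub a X → (∃ x, E x a) → ∃ x, E x a ∧ ∀ y, E y a → ¬ Em k w y x := by
    rintro a ha ⟨x0, hx0⟩
    by_contra hcon
    push Not at hcon
    obtain ⟨g, hg0, hg⟩ := hD N a x0 (fun x y => Em k w y x)
      (hEm (t := fun v : Fin 2 → N => v 1) (s := fun v : Fin 2 → N => v 0)) hx0 hcon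
    have hv : Fnc om om (gr om (fun i => app g i)) :=
      S.fgr _ (inferInstance : DfT (fun v : Fin 1 → N => app g (v 0)))
        fun i hi => ((hX _).1 (ha _ (hg i hi).1)).1
    obtain ⟨n, m, m', hn, h1, h2, h3⟩ := hW _ hv
    have h1' := ((opair_mem_gr (f := fun i => app g i) inferInstance).1 h1).2
    have h2' := ((opair_mem_gr (f := fun i => app g i) inferInstance).1 h2).2
    have e1 : m = app g n := h1'
    have e2 : m' = app g (suc n) := h2'
    subst e1
    subst e2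
    exact h3 ⟨(hX _).1 (ha _ (hg n hn).1), (hX _).1 (ha _ (hg _ (suc_mem_om hn)).1),
      (hg n hn).2⟩
  obtain ⟨c, A, hA, hcA, hAc, hinj, hiso⟩ := hM N X (fun a b => Em k w a b)
    (hEm (t := fun v : Fin 2 → N => v 0) (s := fun v : Fin 2 → N => v 1)) hwf
    (fun x y hx hy h => hext x y ((hX x).1 hx) ((hX y).1 hy) fun a ha => h a ((hX a).2 ha))
  have hsat := hR N (fun a => Dm k w a) (fun a b => Em k w a b) A (fun x => app c x)
    (fun x hx => hcA x ((hX x).2 hx))
    (fun a ha => by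
      obtain ⟨x, hx, e⟩ := hAc a ha
      exact ⟨x, (hX x).1 hx, e⟩)
    (fun x y hx hy => hinj x y ((hX x).2 hx) ((hX y).2 hy))
    (fun x y hx hy => hiso x y ((hX x).2 hx) ((hX y).2 hy))
  -- numbers
  have hnat : ∀ a m, E a om → E m om → Nu k w a m → app c m = a := by
    by_contra hcon
    push Not at hcon
    obtain ⟨a1, m1, ha1, hm1, hn1, hne1⟩ := hcon
    have hdf : Df (fun v : Fin 1 → N => ∃ m, E m om ∧ Nu k w (v 0) m ∧ ¬ app c m = v 0) := by
      have h1 : Df (fun v : Fin 2 → N => E (v 0) om ∧ Nu k w (v 1) (v 0) ∧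
          ¬ app c (v 0) = v 1) := by
        have h2 : Df (fun v : Fin 2 → N => Nu k w (v 1) (v 0)) := hNu
        exact Df.and (hQ := Df.and (hP := h2))
      exact Df.ex (P := fun m (v : Fin 1 → N) => E m om ∧ Nu k w (v 0) m ∧
        ¬ app c m = v 0) (h := h1)
    obtain ⟨a, ha, hmin⟩ := ZF.found (sep om (fun a => ∃ m, E m om ∧ Nu k w a m ∧
      ¬ app c m = a)) ⟨a1, (mem_sep' hdf).2 ⟨ha1, m1, hm1, hn1, hne1⟩⟩
    obtain ⟨hao, m, hmo, hN, hne⟩ := (mem_sep' hdf).1 ha
    have hlow : ∀ b x, E b a → E x om → Nu k w b x → app c x = b := by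
      intro b x hb hx hNb
      by_contra hh
      exact hmin b ((mem_sep' hdf).2 ⟨Trans_om a hao b hb, x, hx, hNb, hh⟩) hb
    obtain ⟨hmD, hmE⟩ := hnu a m hao hmo hN
    apply hne
    refine ext fun t => ⟨fun ht => ?_, fun ht => ?_⟩
    · have htA := hA _ (hcA m ((hX m).2 hmD)) t ht
      obtain ⟨x, hx, rfl⟩ := hAc t htA
      have hEx : Em k w x m := (hiso x m hx ((hX m).2 hmD)).2 ht
      obtain ⟨a', ha', hN'⟩ := (hmE x ((hX x).1 hx)).1 hEx
      rw [hlow a' x ha' ((hX x).1 hx).1 hN']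
      exact ha'
    · obtain ⟨x, hxD, hNx⟩ := hnum t (Trans_om a hao t ht)
      have hEx : Em k w x m := (hmE x hxD).2 ⟨t, ht, hNx⟩
      have h1 := (hiso x m ((hX x).2 hxD) ((hX m).2 hmD)).1 hEx
      rw [hlow t x ht hxD.1 hNx] at h1
      exact h1
  -- ordered pairs
  have hpair : ∀ a b' c', Dm k w a → Dm k w b' → Dm k w c' →
      (SatR (fun a => Dm k w a) (fun a b => Em k w a b) fOP ![a, b', c'] ↔
        app c a = opair (app c b') (app c c')) := by
    intro a b' c' ha hb hc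
    have hv : ∀ i, Dm k w ((![a, b', c'] : Fin 3 → N) i) := by
      intro i
      fin_cases i
      · exact ha
      · exact hb
      · exact hc
    have h1 := hsat 3 fOP ![a, b', c'] hv (fun i => hcA _ ((hX _).2 (hv i)))
    have h2 := fOP_spec (SubS A)
      (fun i => ⟨app c ((![a, b', c'] : Fin 3 → N) i), hcA _ ((hX _).2 (hv i))⟩)
    exact h1.trans (h2.symm.trans
      (co1_op hA (hcA _ ((hX _).2 ha)) (hcA _ ((hX _).2 hb)) (hcA _ ((hX _).2 hc))))
  have hcz : app c m0 = z := by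
    refine ext fun t => ⟨fun ht => ?_, fun ht => ?_⟩
    · have htA := hA _ (hcA m0 ((hX m0).2 hm0)) t ht
      obtain ⟨a, ha, rfl⟩ := hAc t htA
      have hEa : Em k w a m0 := (hiso a m0 ha ((hX m0).2 hm0)).2 ht
      obtain ⟨b, d, b', d', hb, hd, hb', hd', hbd, hNb, hNd, hs⟩ := hz1 a ((hX a).1 ha) hEa
      rw [hpair a b' d' ((hX a).1 ha) (hnu b b' hb hb' hNb).1 (hnu d d' hd hd' hNd).1,
        hnat b b' hb hb' hNb, hnat d d' hd hd' hNd] at hs
      rw [hs]
      exact hbd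
    · obtain ⟨b, d, hb, hd, rfl⟩ := hz.1 t ht
      obtain ⟨a, b', d', ha, hb', hd', hEa, hNb, hNd, hs⟩ := hz2 b d hb hd ht
      rw [hpair a b' d' ha (hnu b b' hb hb' hNb).1 (hnu d d' hd hd' hNd).1,
        hnat b b' hb hb' hNb, hnat d d' hd hd' hNd] at hs
      rw [← hs]
      exact (hiso a m0 ((hX a).2 ha) ((hX m0).2 hm0)).1 hEa
  have hzA : E z A := by
    rw [← hcz]
    exact hcA m0 ((hX m0).2 hm0)
  refine ⟨A, hA, ?_, hzA, ?_⟩
  · have hpd : Fn1 (fun m : N => opair (app c m) m) := by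
      show DfT (fun v : Fin 1 → N => opair (app c (v 0)) (v 0))
      infer_instance
    refine ⟨img X (fun m => opair (app c m) m), fun y hy => ?_, fun y y' n hy hy' hn h h' => ?_⟩
    · obtain ⟨x, hx, rfl⟩ := hAc y hy
      exact ⟨x, ((hX x).1 hx).1, mem_img.2 ⟨x, hx, rfl⟩⟩
    · obtain ⟨x, hx, e⟩ := mem_img.1 h
      obtain ⟨x', hx', e'⟩ := mem_img.1 h'
      rw [opair_inj] at e e'
      rw [e.1, e'.1, ← e.2, ← e'.2]
  · have hv : ∀ i, Dm k w ((![m0] : Fin 1 → N) i) := by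
      intro i
      fin_cases i
      exact hm0
    have h1 := (hsat 1 f ![m0] hv (fun i => hcA _ ((hX _).2 (hv i)))).1 hf
    have e : (fun i => (⟨app c ((![m0] : Fin 1 → N) i), hcA _ ((hX _).2 (hv i))⟩ : SubS A)) =
        (![⟨z, hzA⟩] : Fin 1 → SubS A) := by
      funext i
      fin_cases i
      exact Subtype.ext hcz
    exact Eq.mp (congrArg (fun u : Fin 1 → SubS A => Sat f u) e) h1

end SW.SEP
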