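import Pool.Agent.H63.SEP.Stmts3

/-!
Project SEP, module DBN: the sets of points coded on a side have Sigma-1-3 normal forms.
-/

set_option linter.unusedVariables false
set_option synthInstance.maxSize 100000

namespace SW.SEP

open SW

section
variable {N : Type} [SetStr N] [ZFC N]

/-- every Borel relation agrees, on points, with a definable Borel relation -/
theorem BD.toDf {R : N → N → N → N → Prop} (h : BD R) : ∃ R' : N → N → N → N → Prop,
    BD R' ∧ Df (fun v : Fin 4 → N => R' (v 0) (v 1) (v 2) (v 3)) ∧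
    ∀ x y w v, Fnc om om x → Fnc om om y → Fnc om om w → Fnc om om v →
      (R' x y w v ↔ R x y w v) := by
  induction h with
  | base R hR n hn h => exact ⟨R, BD.base R hR n hn h, hR, fun _ _ _ _ _ _ _ _ => Iff.rfl⟩
  | neg h ih =>
    obtain ⟨R', h1, h2, h3⟩ := ih
    exact ⟨fun x y w v => ¬ R' x y w v, h1.neg, inferInstance, fun x y w v hx hy hw hv =>
      not_congr (h3 x y w v hx hy hw hv)⟩
  | all R hR h ih =>
    refine ⟨fun x y w v => ∀ k, E k om → R k x y w v, BD.all R hR h, ?_,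
      fun _ _ _ _ _ _ _ _ => Iff.rfl⟩
    have h1 : Df (fun w : Fin 5 → N => E (w 0) om → R (w 0) (w 1) (w 2) (w 3) (w 4)) :=
      inferInstance
    exact Df.all (P := fun k (v : Fin 4 → N) => E k om → R k (v 0) (v 1) (v 2) (v 3)) (h := h1)
  | congr h hc ih =>
    obtain ⟨R', h1, h2, h3⟩ := ih
    refine ⟨R', h1, h2, fun x y w v hx hy hw hv => ?_⟩
    rw [h3 x y w v hx hy hw hv, hc x y w v hx hy hw hv]

/-- restrictions of sequences with the same values below `m` -/
theorem res_eq (S : SqFacts N) {A v v' m : N} (hv : Fnc om A v) (hv' : Fnc om A v')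
    (hm : E m om) (h : ∀ i, E i m → app v i = app v' i) : res v m = res v' m := by
  have h1 : Sub m om := Trans_om m hm
  refine S.fext (S.frs hv h1) (S.frs hv' h1) fun x y hxy => ?_
  rw [opair_mem_res] at hxy ⊢
  refine ⟨?_, hxy.2⟩
  have h2 := (S.fapp' hv hxy.1).2.2
  rw [← h2, h x hxy.2]
  exact (S.fapp hv' (h1 x hxy.2)).1

/-- values of sequences with the same restriction -/
theorem app_eq (S : SqFacts N) {A v v' m i : N} (hv : Fnc om A v) (hv' : Fnc om A v')
    (hm : E m om) (h : res v m = res v' m) (hi : E i m) : app v i = app v' i := by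
  have h1 : Sub m om := Trans_om m hm
  have h2 : E (opair i (app v i)) (res v m) := opair_mem_res.2 ⟨(S.fapp hv (h1 i hi)).1, hi⟩
  rw [h, opair_mem_res] at h2
  exact (S.fapp' hv' h2.1).2.2.symm

/-- the part number `e` of the point `w` -/
noncomputable def prt (k e w : N) : N := gr om (fun i => app w (app k (opair e i)))

theorem prt_df : DfT (fun v : Fin 3 → N => prt (v 0) (v 1) (v 2)) := by
  unfold prt; infer_instance

instance {n : ℕ} {t s u : (Fin n → N) → N} [ht : DfT t] [hs : DfT s] [hu : DfT u] :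
    DfT (fun v => prt (t v) (s v) (u v)) :=
  prt_df.comp3 (f := fun a b c => prt a b c) ht hs hu

theorem prt_fnc (S : SqFacts N) {k e w : N} (hk : Inj2 k) (he : E e om) (hw : Fnc om om w) :
    Fnc om om (prt k e w) :=
  S.fgr _ inferInstance fun i hi => (S.fapp hw (hk.1 e i he hi)).2

theorem prt_app (S : SqFacts N) {k e w i : N} (hk : Inj2 k) (he : E e om)
    (hi : E i om) : app (prt k e w) i = app w (app k (opair e i)) :=
  app_gr inferInstance hi

/-- finitely many values of the pairing function are bounded -/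
theorem pair_bound {k e : N} (hk : Inj2 k) (he : E e om) : ∀ m, E m om →
    ∃ n, E n om ∧ ∀ i, E i m → E (app k (opair e i)) n := by
  refine om_ind inferInstance ⟨emp, emp_mem_om, fun i hi => absurd hi (not_mem_emp i)⟩ ?_
  rintro m hm ⟨n, hn, h⟩
  have h1 := hk.1 e m he hm
  have h2 : Ord n := Ord_nat hn
  have h3 := Ord_nat (suc_mem_om h1)
  rcases h2.tri h3 with h4 | h4 | h4
  · refine ⟨_, suc_mem_om h1, fun i hi => ?_⟩
    rcases mem_suc.1 hi with hi | rfl
    · exact h3.trans h4 (h i hi)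
    · simp
  · refine ⟨_, suc_mem_om h1, fun i hi => ?_⟩
    rcases mem_suc.1 hi with hi | rfl
    · rw [← h4]; exact h i hi
    · simp
  · refine ⟨n, hn, fun i hi => ?_⟩
    rcases mem_suc.1 hi with hi | rfl
    · exact h i hi
    · exact h2.trans h4 (by simp)

theorem prt_cn (S : SqFacts N) {k e : N} (hk : Inj2 k) (he : E e om) :
    Cn4 (fun x y w v : N => prt k e w) := by
  refine ⟨inferInstance, fun x y w v _ _ hw _ => prt_fnc S hk he hw, fun m hm => ?_⟩
  obtain ⟨n, hn, h⟩ := pair_bound hk he m hm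
  refine ⟨n, hn, fun x y w v x' y' w' v' _ _ h1 _ => ?_⟩
  obtain ⟨hw, hw', h2⟩ := h1
  refine res_eq S (prt_fnc S hk he hw) (prt_fnc S hk he hw') hm fun i hi => ?_
  have hi' : E i om := Trans_om m hm i hi
  rw [prt_app S hk he hi', prt_app S hk he hi']
  exact app_eq S hw hw' hn h2 (h i hi)

theorem one_mem_om' : E (one : N) om := by
  have h : (one : N) = suc emp := by
    refine ext fun z => ?_
    unfold one
    rw [mem_sing, mem_suc]
    exact ⟨Or.inr, fun h => h.resolve_left (not_mem_emp z)⟩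
  rw [h]
  exact suc_mem_om emp_mem_om

/-- two points are the parts of a point -/
theorem prt_merge (S : SqFacts N) {k z z' : N} (hk : Inj2 k) (hz : Fnc om om z)
    (hz' : Fnc om om z') : ∃ w, Fnc om om w ∧ prt k emp w = z ∧ prt k one w = z' := by
  have hne : (emp : N) ≠ one := fun h => by
    have : E (emp : N) (one : N) := by unfold one; rw [mem_sing]
    rw [← h] at this
    exact not_mem_emp _ this
  let P : N → N → Prop := fun m c =>
    (∃ i, E i om ∧ m = app k (opair emp i) ∧ c = app z i) ∨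
    (∃ i, E i om ∧ m = app k (opair one i) ∧ c = app z' i)
  have hPd : Fn1 (fun m => the (fun c => P m c)) := by
    show Fn1 (fun m => the (fun c => (∃ i, E i om ∧ m = app k (opair emp i) ∧ c = app z i) ∨
      (∃ i, E i om ∧ m = app k (opair one i) ∧ c = app z' i)))
    infer_instance
  have h0 : ∀ i, E i om → the (P (app k (opair emp i))) = app z i := by
    intro i hi
    refine the_eq (Or.inl ⟨i, hi, rfl, rfl⟩) ?_
    rintro c (⟨i', hi', h1, rfl⟩ | ⟨i', hi', h1, rfl⟩)
    · rw [(hk.2 _ _ _ _ emp_mem_om hi emp_mem_om hi' h1).2]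
    · exact absurd (hk.2 _ _ _ _ emp_mem_om hi one_mem_om' hi' h1).1 hne
  have h1 : ∀ i, E i om → the (P (app k (opair one i))) = app z' i := by
    intro i hi
    refine the_eq (Or.inr ⟨i, hi, rfl, rfl⟩) ?_
    rintro c (⟨i', hi', h1, rfl⟩ | ⟨i', hi', h1, rfl⟩)
    · exact absurd (hk.2 _ _ _ _ one_mem_om' hi emp_mem_om hi' h1).1.symm hne
    · rw [(hk.2 _ _ _ _ one_mem_om' hi one_mem_om' hi' h1).2]
  have hval : ∀ m, E m om → E (the (P m)) om := by
    intro m _
    by_cases h : ∃ c, P m c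
    · obtain ⟨c, hc⟩ := h
      rcases hc with ⟨i, hi, rfl, rfl⟩ | ⟨i, hi, rfl, rfl⟩
      · rw [h0 i hi]; exact (S.fapp hz hi).2
      · rw [h1 i hi]; exact (S.fapp hz' hi).2
    · have : the (P m) = (emp : N) := by
        unfold SW.the
        rw [dif_neg]
        rintro ⟨c, hc, _⟩
        exact h ⟨c, hc⟩
      rw [this]
      exact emp_mem_om
  have hw : Fnc om om (gr om (fun m => the (P m))) := S.fgr _ hPd hval
  refine ⟨gr om (fun m => the (P m)), hw, ?_, ?_⟩
  · refine S.fext (prt_fnc S hk emp_mem_om hw) hz fun x y hxy => ?_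
    obtain ⟨hx, hy, h2⟩ := S.fapp' (prt_fnc S hk emp_mem_om hw) hxy
    rw [prt_app S hk emp_mem_om hx, app_gr hPd (hk.1 _ _ emp_mem_om hx), h0 x hx] at h2
    rw [← h2]
    exact (S.fapp hz hx).1
  · refine S.fext (prt_fnc S hk one_mem_om' hw) hz' fun x y hxy => ?_
    obtain ⟨hx, hy, h2⟩ := S.fapp' (prt_fnc S hk one_mem_om' hw) hxy
    rw [prt_app S hk one_mem_om' hx, app_gr hPd (hk.1 _ _ one_mem_om' hx), h1 x hx] at h2
    rw [← h2]
    exact (S.fapp hz' hx).1

/-! ### coding sequences of values by points -/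

/-- the value with number `m` -/
noncomputable def dcv (F m : N) : N := the (fun a => E a LL ∧ E (opair a m) F)

theorem dcv_df : Fn2 (fun F m : N => dcv F m) := by unfold dcv; infer_instance

instance {n : ℕ} {t s : (Fin n → N) → N} [ht : DfT t] [hs : DfT s] :
    DfT (fun v => dcv (t v) (s v)) := dcv_df.comp2 ht hs

/-- the sequence coded by the point `y` -/
noncomputable def dcd (F y : N) : N := gr om (fun i => dcv F (app y i))

theorem dcd_df : Fn2 (fun F m : N => dcd F m) := by unfold dcd; infer_instance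

instance {n : ℕ} {t s : (Fin n → N) → N} [ht : DfT t] [hs : DfT s] :
    DfT (fun v => dcd (t v) (s v)) := dcd_df.comp2 ht hs

theorem dcv_eq {F m a : N} (hF : ∀ y y' n, E y LL → E y' LL → E n om → E (opair y n) F →
    E (opair y' n) F → y = y') (hm : E m om) (ha : E a LL) (h : E (opair a m) F) :
    dcv F m = a :=
  the_eq ⟨ha, h⟩ fun z hz => hF _ _ _ hz.1 ha hm hz.2 h

/-- the condition on `x` and `y` at `n` -/
def AnR (F b i n x y : N) : Prop := ∃ a, E a LL ∧ E (opair a (app y n)) F ∧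
  ∀ a0, E (opair n a0) x → ∃ c' c, E c' om ∧ E c om ∧ a = cdv a0 c' i c ∧
    E (opair n (nonc c')) b

theorem AnR_df {F b i : N} : Cl3 (fun n x y : N => AnR F b i n x y) := by
  unfold AnR; infer_instance

instance {F b i : N} {n : ℕ} {t s u : (Fin n → N) → N} [ht : DfT t] [hs : DfT s] [hu : DfT u] :
    Df (fun v => AnR F b i (t v) (s v) (u v)) := AnR_df.comp3 ht hs hu

theorem AnR_bd (S : SqFacts N) (F b i : N) :
    BD (fun x y w v : N => ∀ n, E n om → AnR F b i n x y) := by
  refine BD.all (fun n x y w v => AnR F b i n x y) inferInstance fun n hn => ?_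
  refine BD.base _ inferInstance (suc n) (suc_mem_om hn) ?_
  have key : ∀ x y x' y', Agr (suc n) x x' → Agr (suc n) y y' → AnR F b i n x y →
      AnR F b i n x' y' := by
    rintro x y x' y' ⟨hx, hx', h1⟩ ⟨hy, hy', h2⟩ ⟨a, ha, h3, h4⟩
    have h5 := app_eq S hy hy' (suc_mem_om hn) h2 (by simp : E n (suc n))
    refine ⟨a, ha, by rw [← h5]; exact h3, fun a0 ha0 => h4 a0 ?_⟩
    have h6 : E (opair n a0) (res x' (suc n)) := opair_mem_res.2 ⟨ha0, by simp⟩
    rw [← h1, opair_mem_res] at h6
    exact h6.1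
  intro x y w v x' y' w' v' h1 h2 _ _
  exact ⟨key x y x' y' h1 h2, key x' y' x y ⟨h1.2.1, h1.1, h1.2.2.symm⟩
    ⟨h2.2.1, h2.1, h2.2.2.symm⟩⟩

/-- restrictions of the decoded sequence -/
theorem res_dcd (S : SqFacts N) {F n y y' : N} (hn : E n om) (h : Agr n y y') :
    res (dcd F y) n = res (dcd F y') n := by
  obtain ⟨hy, hy', h1⟩ := h
  have key : ∀ y y' : N, Fnc om om y → Fnc om om y' → res y n = res y' n → ∀ z,
      E z (res (dcd F y) n) → E z (res (dcd F y') n) := by
    intro y y' hy hy' h1 z hz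
    rw [mem_res] at hz
    obtain ⟨hz, x, c, hx, rfl⟩ := hz
    rw [opair_mem_res]
    refine ⟨?_, hx⟩
    unfold dcd at hz ⊢
    rw [opair_mem_gr inferInstance] at hz ⊢
    refine ⟨hz.1, ?_⟩
    rw [hz.2, app_eq S hy hy' hn h1 hx]
  exact ext fun z => ⟨key y y' hy hy' h1 z, key y' y hy' hy h1.symm z⟩

theorem InR_bd (S : SqFacts N) (hBF : BDFStmt) (hBS : BDSStmt) {k g F : N} (hk : Inj2 k) :
    BD (fun x y w v : N => ∃ j, E j om ∧ ∀ n, E n om → E j n →
      InR g (res (dcd F y) n) (res (prt k emp w) n)) := by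
  refine (hBF N).2.2 (fun j x y w v => ∀ n, E n om → E j n →
      InR g (res (dcd F y) n) (res (prt k emp w) n)) inferInstance fun j hj => ?_
  refine BD.all (fun n x y w v => E j n → InR g (res (dcd F y) n) (res (prt k emp w) n))
    inferInstance fun n hn => ?_
  have h1 : BD (fun x y w v : N => E j n → InR g (res (dcd F x) n) (res y n)) := by
    refine BD.base _ inferInstance n hn ?_
    intro x y w v x' y' w' v' h1 h2 _ _
    rw [res_dcd S hn h1, h2.2.2]
  exact hBS N (fun x y w v : N => E j n → InR g (res (dcd F x) n) (res y n))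
    (fun x y w v => y) (fun x y w v => prt k emp w) (fun x y w v => w) (fun x y w v => v) h1
    ⟨inferInstance, fun x y w v _ hy _ _ => hy, fun k hk => ⟨k, hk,
      fun x y w v x' y' w' v' _ h _ _ => h.2.2⟩⟩
    (prt_cn S hk emp_mem_om)
    ⟨inferInstance, fun x y w v _ _ hw _ => hw, fun k hk => ⟨k, hk,
      fun x y w v x' y' w' v' _ _ h _ => h.2.2⟩⟩
    ⟨inferInstance, fun x y w v _ _ _ hv => hv, fun k hk => ⟨k, hk,
      fun x y w v x' y' w' v' _ _ _ h => h.2.2⟩⟩

end

theorem sep_dbn (hSQ : SQFStmt) (hCT : CTSStmt) (hBF : BDFStmt) (hBS : BDSStmt)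
    (hI : IN2Stmt) : DBNStmt := by
  intro N _ _ g Z b i hZ
  obtain ⟨hZ1, R0, hR0, hZR⟩ := hZ
  obtain ⟨k, hk⟩ := hI N
  obtain ⟨F, hF1, hF2⟩ := (hCT N).2.1
  have S := hSQ N
  obtain ⟨R1, hR1, hR1d, hR1e⟩ := hR0.toDf
  have hvCn : Cn4 (fun x y w v : N => v) := ⟨inferInstance, fun x y w v _ _ _ hv => hv,
    fun k hk => ⟨k, hk, fun x y w v x' y' w' v' _ _ _ h => h.2.2⟩⟩
  have hC : BD (fun x y w v : N => ¬ R1 (prt k emp w) (prt k one w) v v) :=
    (hBS N R1 (fun x y w v => prt k emp w) (fun x y w v => prt k one w) (fun x y w v => v)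
      (fun x y w v => v) hR1 (prt_cn S hk emp_mem_om) (prt_cn S hk one_mem_om') hvCn hvCn).neg
  have hCd : Df (fun v : Fin 4 → N => ¬ R1 (prt k emp (v 2)) (prt k one (v 2)) (v 3) (v 3)) := by
    have : Df (fun v : Fin 4 → N => R1 (prt k emp (v 2)) (prt k one (v 2)) (v 3) (v 3)) :=
      Df.comp4 (R := R1) hR1d inferInstance inferInstance inferInstance inferInstance
    infer_instance
  have hBd : Df (fun v : Fin 4 → N => ∃ j, E j om ∧ ∀ n, E n om → E j n →
      InR g (res (dcd F (v 1)) n) (res (prt k emp (v 2)) n)) := inferInstance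
  have hAd : Df (fun v : Fin 4 → N => ∀ n, E n om → AnR F b i n (v 0) (v 1)) := inferInstance
  refine ⟨fun x y w v => (∀ n, E n om → AnR F b i n x y) ∧
    (¬ R1 (prt k emp w) (prt k one w) v v ∨ ∃ j, E j om ∧ ∀ n, E n om → E j n →
      InR g (res (dcd F y) n) (res (prt k emp w) n)), ?_, ?_⟩
  · refine ((hBF N).1 _ _ ?_ ?_ (AnR_bd S F b i) ((hBF N).1 _ _ ?_ ?_ hC
      (InR_bd S hBF hBS hk)).2.1).1
    · exact hAd
    · exact Df.or (hP := hCd) (hQ := hBd)
    · exact hCd
    · exact hBd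
  · intro x hx
    constructor
    · rintro ⟨u, hu, h1, h2⟩
      -- the code of `u`
      let Q : N → N → Prop := fun j m => E m om ∧ E (opair (app u j) m) F ∧
        ∀ m', E m' m → ¬ E (opair (app u j) m') F
      have hQd : Fn1 (fun j => the (fun m => Q j m)) := by
        show Fn1 (fun j => the (fun m => E m om ∧ E (opair (app u j) m) F ∧
          ∀ m', E m' m → ¬ E (opair (app u j) m') F))
        infer_instance
      have hQ : ∀ j, E j om → Q j (the (Q j)) := by
        intro j hj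
        refine the_spec ?_
        obtain ⟨m, hm, h3⟩ := hF1 (app u j) (S.fapp hu hj).2
        obtain ⟨m', hm', h4, h5, h6⟩ := ord_min
          (C := fun m => E m om ∧ E (opair (app u j) m) F) inferInstance (Ord_nat hm) ⟨hm, h3⟩
        refine ⟨m', ⟨h4.1, h4.2, fun m'' h7 h8 => h5 m'' h7 ⟨Trans_om m' h4.1 m'' h7, h8⟩⟩, ?_⟩
        rintro m'' ⟨h7, h8, h9⟩
        rcases (Ord_nat h7).tri (Ord_nat h4.1) with h10 | h10 | h10
        · exact absurd ⟨h7, h8⟩ (h5 m'' h10)
        · exact h10
        · exact absurd h4.2 (h9 m' h10)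
      have hy : Fnc om om (gr om (fun j => the (Q j))) := S.fgr _ hQd fun j hj => (hQ j hj).1
      have hya : ∀ j, E j om → app (gr om (fun j => the (Q j))) j = the (Q j) :=
        fun j hj => app_gr hQd hj
      have hdc : dcd F (gr om (fun j => the (Q j))) = u := by
        refine ext fun z => ?_
        unfold dcd
        rw [mem_gr' inferInstance]
        constructor
        · rintro ⟨j, hj, rfl⟩
          rw [hya j hj, dcv_eq hF2 (hQ j hj).1 (S.fapp hu hj).2 (hQ j hj).2.1]
          exact (S.fapp hu hj).1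
        · intro hz
          obtain ⟨j, c, hj, hc, rfl⟩ := hu.1 z hz
          refine ⟨j, hj, ?_⟩
          rw [hya j hj, dcv_eq hF2 (hQ j hj).1 (S.fapp hu hj).2 (hQ j hj).2.1,
            (S.fapp' hu hz).2.2]
      refine ⟨_, hy, fun w hw => ?_⟩
      have hA : ∀ n, E n om → AnR F b i n x (gr om (fun j => the (Q j))) := by
        intro n hn
        refine ⟨app u n, (S.fapp hu hn).2, ?_, fun a0 ha0 => ?_⟩
        · rw [hya n hn]; exact (hQ n hn).2.1
        · obtain ⟨c', c, hc', hc, h3, h4⟩ := h1 n a0 ha0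
          exact ⟨c', c, hc', hc, (S.fapp' hu h3).2.2, h4⟩
      by_cases hz : E (prt k emp w) Z
      · refine ⟨w, hw, hA, Or.inr ?_⟩
        obtain ⟨j, hj, h3⟩ := h2 _ hz
        refine ⟨j, hj, fun n hn hjn => ?_⟩
        rw [hdc]
        exact h3 n hn hjn
      · have hz' := hz
        rw [hZR _ (prt_fnc S hk emp_mem_om hw)] at hz'
        push Not at hz'
        obtain ⟨v, hv, h3⟩ := hz' (prt k one w) (prt_fnc S hk one_mem_om' hw)
        refine ⟨v, hv, hA, Or.inl ?_⟩
        rw [hR1e _ _ _ _ (prt_fnc S hk emp_mem_om hw) (prt_fnc S hk one_mem_om' hw) hv hv]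
        exact h3
    · rintro ⟨y, hy, h⟩
      have hA : ∀ n, E n om → AnR F b i n x y := by
        obtain ⟨v, hv, h1, _⟩ := h y hy
        exact h1
      have hu : Fnc om LL (dcd F y) := by
        refine S.fgr _ inferInstance fun n hn => ?_
        obtain ⟨a, ha, h1, _⟩ := hA n hn
        rw [dcv_eq hF2 (S.fapp hy hn).2 ha h1]
        exact ha
      refine ⟨dcd F y, hu, fun n a0 ha0 => ?_, fun z hz => ?_⟩
      · have hn := (S.fapp' hx ha0).1
        obtain ⟨a, ha, h1, h2⟩ := hA n hn
        obtain ⟨c', c, hc', hc, h3, h4⟩ := h2 a0 ha0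
        refine ⟨c', c, hc', hc, ?_, h4⟩
        rw [← h3]
        unfold dcd
        rw [opair_mem_gr inferInstance]
        exact ⟨hn, (dcv_eq hF2 (S.fapp hy hn).2 ha h1).symm⟩
      · have hz1 := hZ1 z hz
        obtain ⟨w', hw', h1⟩ := (hZR z hz1).1 hz
        obtain ⟨w, hw, hwz, hww⟩ := prt_merge S hk hz1 hw'
        obtain ⟨v, hv, _, h2⟩ := h w hw
        rw [hwz, hww] at h2
        rcases h2 with h2 | h2
        · rw [hR1e _ _ _ _ hz1 hw' hv hv] at h2
          exact absurd (h1 v hv) h2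
        · exact h2

end SW.SEP
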